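import Mathlib

/-!
# MP_c8a11a_co : a veto interval graph that is not a midpoint veto interval graph

A counting argument: a fixed set of `m` midpoint veto intervals induces at most `(4m+1)²` distinct
neighbourhoods among all further midpoint veto intervals, while general veto intervals can realise
`(m/3+1)³` distinct neighbourhoods.
-/

namespace Pool.Agent.Results.MP_c8a11a_co.NotMidpoint

open Finset

/-- `(l, m, r)` is a veto interval representation of `G` (`m` = veto marks): `l < m < r`, the
triples are pairwise distinct, and distinct vertices are adjacent iff their intervals meet and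
neither contains the veto mark of the other. -/
def IsVIRep {V : Type*} (G : SimpleGraph V) (l m r : V → ℝ) : Prop :=
  (∀ a, l a < m a ∧ m a < r a) ∧
  Function.Injective (fun a => (l a, m a, r a)) ∧
  ∀ a b, a ≠ b → (G.Adj a b ↔
    (m a < l b ∧ l b < r a ∧ r a < m b) ∨ (m b < l a ∧ l a < r b ∧ r b < m a))

/-- Veto interval graphs. -/
def IsVI {V : Type*} (G : SimpleGraph V) : Prop := ∃ l m r : V → ℝ, IsVIRep G l m r

/-- Midpoint veto interval graphs. -/
def IsMVI {V : Type*} (G : SimpleGraph V) : Prop :=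
  ∃ l m r : V → ℝ, IsVIRep G l m r ∧ ∀ a, m a = (l a + r a) / 2

section Counting

variable {B : Type*} [Fintype B]

/-- number of thresholds below `x` -/
noncomputable def cnt (p q : B → ℝ) (x : ℝ) : ℕ :=
  (univ.filter fun b => p b < x).card + (univ.filter fun b => q b ≤ x).card

lemma cnt_mono (p q : B → ℝ) {x y : ℝ} (h : x ≤ y) : cnt p q x ≤ cnt p q y := by
  apply add_le_add
  · apply card_le_card
    intro b hb
    simp only [mem_filter, mem_univ, true_and] at hb ⊢
    exact hb.trans_le h
  · apply card_le_card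
    intro b hb
    simp only [mem_filter, mem_univ, true_and] at hb ⊢
    exact hb.trans h

lemma cnt_le (p q : B → ℝ) (x : ℝ) : cnt p q x ≤ 2 * Fintype.card B := by
  have h1 := card_le_univ (univ.filter fun b => p b < x)
  have h2 := card_le_univ (univ.filter fun b => q b ≤ x)
  unfold cnt
  omega

lemma cnt_eq_aux (p q : B → ℝ) {x y : ℝ} (hxy : x ≤ y) (h : cnt p q x = cnt p q y) :
    ∀ b, (p b < x ↔ p b < y) ∧ (q b ≤ x ↔ q b ≤ y) := by
  have s1 : (univ.filter fun b => p b < x) ⊆ (univ.filter fun b => p b < y) := by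
    intro b hb
    simp only [mem_filter, mem_univ, true_and] at hb ⊢
    exact hb.trans_le hxy
  have s2 : (univ.filter fun b => q b ≤ x) ⊆ (univ.filter fun b => q b ≤ y) := by
    intro b hb
    simp only [mem_filter, mem_univ, true_and] at hb ⊢
    exact hb.trans hxy
  have c1 := card_le_card s1
  have c2 := card_le_card s2
  unfold cnt at h
  have e1 := eq_of_subset_of_card_le s1 (by omega)
  have e2 := eq_of_subset_of_card_le s2 (by omega)
  intro b
  constructor
  · have := Finset.ext_iff.1 e1 b
    simpa using this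
  · have := Finset.ext_iff.1 e2 b
    simpa using this

lemma cnt_eq (p q : B → ℝ) {x y : ℝ} (h : cnt p q x = cnt p q y) :
    ∀ b, (p b < x ↔ p b < y) ∧ (q b ≤ x ↔ q b ≤ y) := by
  rcases le_total x y with hxy | hxy
  · exact cnt_eq_aux p q hxy h
  · intro b
    have := cnt_eq_aux p q hxy h.symm b
    exact ⟨this.1.symm, this.2.symm⟩

lemma lt_of_cnt_lt (p q : B → ℝ) {x y : ℝ} (h : cnt p q x < cnt p q y) : x < y := by
  by_contra hc
  exact absurd (cnt_mono p q (not_lt.1 hc)) (not_le.2 h)

/-- At most `(4m+1)²` distinct neighbourhoods of midpoint veto intervals. -/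
lemma card_le_of_midpoint {A : Type*} [Fintype A] (al av ar : A → ℝ) (bl bv br : B → ℝ)
    (hmid : ∀ a, av a = (al a + ar a) / 2)
    (hdist : ∀ a a', (∀ b, ((av a < bl b ∧ bl b < ar a ∧ ar a < bv b) ∨
        (bv b < al a ∧ al a < br b ∧ br b < av a)) ↔
        ((av a' < bl b ∧ bl b < ar a' ∧ ar a' < bv b) ∨
        (bv b < al a' ∧ al a' < br b ∧ br b < av a'))) → a = a') :
    Fintype.card A ≤ (4 * Fintype.card B + 1) * (4 * Fintype.card B + 1) := by
  classical
  set m := Fintype.card B with hm
  let α : A → ℕ := fun a => cnt bv br (al a)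
  let β : A → ℕ := fun a => cnt br bl (av a)
  let γ : A → ℕ := fun a => cnt bl bv (ar a)
  have hα : ∀ a, α a ≤ 2 * m := fun a => cnt_le _ _ _
  have hβ : ∀ a, β a ≤ 2 * m := fun a => cnt_le _ _ _
  have hγ : ∀ a, γ a ≤ 2 * m := fun a => cnt_le _ _ _
  have hinj3 : ∀ a a', α a = α a' → β a = β a' → γ a = γ a' → a = a' := by
    intro a a' h1 h2 h3
    apply hdist
    intro b
    have e1 := cnt_eq bv br h1 b
    have e2 := cnt_eq br bl h2 b
    have e3 := cnt_eq bl bv h3 b
    have f1 : av a < bl b ↔ av a' < bl b := by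
      rw [← not_le, ← not_le, not_iff_not]; exact e2.2
    have f2 : ar a < bv b ↔ ar a' < bv b := by
      rw [← not_le, ← not_le, not_iff_not]; exact e3.2
    have f3 : al a < br b ↔ al a' < br b := by
      rw [← not_le, ← not_le, not_iff_not]; exact e1.2
    rw [f1, f2, f3, e1.1, e2.1, e3.1]
  have key : ∀ a a', α a < α a' → γ a < γ a' → β a ≤ β a' := by
    intro a a' h1 h2
    apply cnt_mono
    have h3 := lt_of_cnt_lt _ _ h1
    have h4 := lt_of_cnt_lt _ _ h2
    rw [hmid a, hmid a']
    linarith
  let Φ : A → Fin (4 * m + 1) × Fin (4 * m + 1) := fun a =>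
    (⟨γ a + 2 * m - α a, by have := hα a; have := hγ a; omega⟩,
      ⟨α a + β a, by have := hα a; have := hβ a; omega⟩)
  have hΦ : Function.Injective Φ := by
    intro a a' h
    simp only [Φ, Prod.mk.injEq, Fin.mk.injEq] at h
    obtain ⟨h1, h2⟩ := h
    have a1 := hα a
    have a2 := hα a'
    have b1 := hβ a
    have b2 := hβ a'
    have c1 := hγ a
    have c2 := hγ a'
    rcases lt_trichotomy (α a) (α a') with hlt | heq | hgt
    · have := key a a' hlt (by omega)
      omega
    · exact hinj3 a a' heq (by omega) (by omega)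
    · have := key a' a hgt (by omega)
      omega
  have := Fintype.card_le_of_injective Φ hΦ
  simpa using this

end Counting

/-- The vertices: all triples (the test vertices), and three families of background vertices. -/
abbrev Vx : Type := (Fin 151 × Fin 151 × Fin 151) ⊕ (Fin 3 × Fin 150)

/-- left endpoints -/
noncomputable def L : Vx → ℝ
  | Sum.inl p => (p.1 : ℕ)
  | Sum.inr (k, i) => if k = 0 then -2 else if k = 1 then 1000 + (i : ℕ) + 1/2
      else 2000 + (i : ℕ) + 1/2

/-- veto marks -/
noncomputable def M : Vx → ℝ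
  | Sum.inl p => 1000 + (p.2.1 : ℕ)
  | Sum.inr (k, _) => if k = 0 then -1 else 5000

/-- right endpoints -/
noncomputable def R : Vx → ℝ
  | Sum.inl p => 2000 + (p.2.2 : ℕ)
  | Sum.inr (k, i) => if k = 0 then (i : ℕ) + 1/2 else 5000 + (k : ℕ)

/-- The explicit veto interval graph. -/
def G : SimpleGraph Vx where
  Adj a b := a ≠ b ∧ ((M a < L b ∧ L b < R a ∧ R a < M b) ∨ (M b < L a ∧ L a < R b ∧ R b < M a))
  symm := ⟨fun _ _ h => ⟨h.1.symm, h.2.symm⟩⟩
  loopless := ⟨fun _ h => h.1 rfl⟩

lemma fb {n : ℕ} (i : Fin n) (hn : n ≤ 200) : (0:ℝ) ≤ ((i : ℕ) : ℝ) ∧ ((i : ℕ) : ℝ) < 200 := by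
  refine ⟨Nat.cast_nonneg _, ?_⟩
  have : (i : ℕ) < 200 := lt_of_lt_of_le i.2 hn
  exact_mod_cast this

lemma rep_lt (a : Vx) : L a < M a ∧ M a < R a := by
  rcases a with ⟨x, y, z⟩ | ⟨k, i⟩
  · have h1 := fb x (by norm_num)
    have h2 := fb y (by norm_num)
    have h3 := fb z (by norm_num)
    simp only [L, M, R]
    constructor <;> linarith
  · have h1 := fb i (by norm_num)
    fin_cases k
    · simp only [L, M, R]
      simp
      norm_num
      linarith
    · simp only [L, M, R]
      simp
      linarith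
    · simp only [L, M, R]
      simp
      linarith

lemma rep_inj : Function.Injective (fun a => (L a, M a, R a)) := by
  rintro (⟨x, y, z⟩ | ⟨k, i⟩) (⟨x', y', z'⟩ | ⟨k', i'⟩) h
  · simp only [Prod.mk.injEq, L, M, R] at h
    obtain ⟨h1, h2, h3⟩ := h
    have e1 : x = x' := by
      apply Fin.ext; exact_mod_cast h1
    have e2 : y = y' := by
      apply Fin.ext
      have : ((y : ℕ) : ℝ) = ((y' : ℕ) : ℝ) := by linarith
      exact_mod_cast this
    have e3 : z = z' := by
      apply Fin.ext
      have : ((z : ℕ) : ℝ) = ((z' : ℕ) : ℝ) := by linarith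
      exact_mod_cast this
    rw [e1, e2, e3]
  · exfalso
    simp only [Prod.mk.injEq, M] at h
    have h2 := fb y (by norm_num)
    by_cases hk : k' = 0
    · simp only [hk, if_true] at h
      linarith [h.2.1]
    · simp only [hk, if_false] at h
      linarith [h.2.1]
  · exfalso
    simp only [Prod.mk.injEq, M] at h
    have h2 := fb y' (by norm_num)
    by_cases hk : k = 0
    · simp only [hk, if_true] at h
      linarith [h.2.1]
    · simp only [hk, if_false] at h
      linarith [h.2.1]
  · have hi := fb i (by norm_num)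
    have hi' := fb i' (by norm_num)
    have key : ((i : ℕ) : ℝ) = ((i' : ℕ) : ℝ) → i = i' := by
      intro h
      apply Fin.ext
      exact_mod_cast h
    simp only [Prod.mk.injEq] at h
    obtain ⟨h1, h2, h3⟩ := h
    have hk : k = k' := by
      fin_cases k <;> fin_cases k' <;> simp [L, M, R] at h1 h2 h3 ⊢ <;> linarith
    subst hk
    have hii : ((i : ℕ) : ℝ) = ((i' : ℕ) : ℝ) := by
      fin_cases k
      · simpa [R] using h3
      · simpa [L] using h1
      · simpa [L] using h1
    rw [key hii]

lemma isVI : IsVI G := by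
  refine ⟨L, M, R, rep_lt, rep_inj, ?_⟩
  intro a b hab
  constructor
  · exact fun h => h.2
  · exact fun h => ⟨hab, h⟩

/-- adjacency of test vertices to the three background families -/
lemma adj0 (x y z : Fin 151) (i : Fin 150) :
    G.Adj (Sum.inl (x, y, z)) (Sum.inr (0, i)) ↔ (x : ℕ) ≤ i := by
  have h1 := fb x (by norm_num)
  have h2 := fb y (by norm_num)
  have h3 := fb z (by norm_num)
  have h4 := fb i (by norm_num)
  have e : ((x : ℕ) : ℝ) < (i : ℕ) + 1/2 ↔ (x : ℕ) ≤ i := by
    constructor
    · intro h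
      have : ((x : ℕ) : ℝ) < ((i : ℕ) : ℝ) + 1 := by linarith
      have h' : (x : ℕ) < i + 1 := by exact_mod_cast this
      omega
    · intro h
      have : ((x : ℕ) : ℝ) ≤ ((i : ℕ) : ℝ) := by exact_mod_cast h
      linarith
  rw [← e]
  constructor
  · rintro ⟨_, h | h⟩
    · simp only [L, M, R, if_true] at h
      linarith [h.1]
    · simp only [L, M, R, if_true] at h
      exact h.2.1
  · intro h
    refine ⟨by simp, Or.inr ?_⟩
    simp only [L, M, R, if_true]
    refine ⟨by linarith, h, by linarith⟩

lemma adj1 (x y z : Fin 151) (i : Fin 150) :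
    G.Adj (Sum.inl (x, y, z)) (Sum.inr (1, i)) ↔ (y : ℕ) ≤ i := by
  have h1 := fb x (by norm_num)
  have h2 := fb y (by norm_num)
  have h3 := fb z (by norm_num)
  have h4 := fb i (by norm_num)
  have e : ((y : ℕ) : ℝ) < (i : ℕ) + 1/2 ↔ (y : ℕ) ≤ i := by
    constructor
    · intro h
      have : ((y : ℕ) : ℝ) < ((i : ℕ) : ℝ) + 1 := by linarith
      have h' : (y : ℕ) < i + 1 := by exact_mod_cast this
      omega
    · intro h
      have : ((y : ℕ) : ℝ) ≤ ((i : ℕ) : ℝ) := by exact_mod_cast h
      linarith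
  rw [← e]
  have n0 : ¬ ((1 : Fin 3) = 0) := by decide
  constructor
  · rintro ⟨_, h | h⟩
    · simp only [L, M, R, n0, if_true, if_false] at h
      linarith [h.1]
    · simp only [L, M, R, n0, if_true, if_false] at h
      linarith [h.1]
  · intro h
    refine ⟨by simp, Or.inl ?_⟩
    simp only [L, M, R, n0, if_true, if_false]
    refine ⟨by linarith, by linarith, by linarith⟩

lemma adj2 (x y z : Fin 151) (i : Fin 150) :
    G.Adj (Sum.inl (x, y, z)) (Sum.inr (2, i)) ↔ ¬ (z : ℕ) ≤ i := by
  have h1 := fb x (by norm_num)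
  have h2 := fb y (by norm_num)
  have h3 := fb z (by norm_num)
  have h4 := fb i (by norm_num)
  have e : (i : ℕ) + 1/2 < ((z : ℕ) : ℝ) ↔ ¬ (z : ℕ) ≤ i := by
    constructor
    · intro h
      have : ((i : ℕ) : ℝ) < ((z : ℕ) : ℝ) := by linarith
      have h' : (i : ℕ) < z := by exact_mod_cast this
      omega
    · intro h
      have h' : (i : ℕ) + 1 ≤ z := by omega
      have : ((i : ℕ) : ℝ) + 1 ≤ ((z : ℕ) : ℝ) := by exact_mod_cast h'
      linarith
  rw [← e]
  have n0 : ¬ ((2 : Fin 3) = 0) := by decide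
  have n1 : ¬ ((2 : Fin 3) = 1) := by decide
  constructor
  · rintro ⟨_, h | h⟩
    · simp only [L, M, R, n0, n1, if_true, if_false] at h
      linarith [h.2.1]
    · simp only [L, M, R, n0, n1, if_true, if_false] at h
      linarith [h.1]
  · intro h
    refine ⟨by simp, Or.inl ?_⟩
    simp only [L, M, R, n0, n1, if_true, if_false]
    refine ⟨by linarith, by linarith, by linarith⟩

lemma fin_eq {x x' : Fin 151} (h : ∀ i : Fin 150, ((x : ℕ) ≤ i ↔ (x' : ℕ) ≤ i)) : x = x' := by
  apply Fin.ext
  rcases lt_trichotomy (x : ℕ) (x' : ℕ) with hlt | heq | hgt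
  · have := (h ⟨x, by omega⟩).1 le_rfl
    simp only at this
    omega
  · exact heq
  · have := (h ⟨x', by omega⟩).2 le_rfl
    simp only at this
    omega

lemma not_isMVI : ¬ IsMVI G := by
  rintro ⟨l, m, r, ⟨-, -, hadj⟩, hmid⟩
  have hcard := card_le_of_midpoint (A := Fin 151 × Fin 151 × Fin 151) (B := Fin 3 × Fin 150)
    (fun a => l (Sum.inl a)) (fun a => m (Sum.inl a)) (fun a => r (Sum.inl a))
    (fun b => l (Sum.inr b)) (fun b => m (Sum.inr b)) (fun b => r (Sum.inr b))
    (fun a => hmid _) ?_
  · simp only [Fintype.card_prod, Fintype.card_fin] at hcard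
    norm_num at hcard
  · rintro ⟨x, y, z⟩ ⟨x', y', z'⟩ h
    have h' : ∀ b, (G.Adj (Sum.inl (x, y, z)) (Sum.inr b) ↔
        G.Adj (Sum.inl (x', y', z')) (Sum.inr b)) := by
      intro b
      rw [hadj _ _ (by simp), hadj _ _ (by simp)]
      exact h b
    have e0 : x = x' := fin_eq fun i => by
      have := h' (0, i)
      rwa [adj0, adj0] at this
    have e1 : y = y' := fin_eq fun i => by
      have := h' (1, i)
      rwa [adj1, adj1] at this
    have e2 : z = z' := fin_eq fun i => by
      have := h' (2, i)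
      rw [adj2, adj2] at this
      exact not_iff_not.1 this
    rw [e0, e1, e2]

/-- **MP_c8a11a_co, Q1: yes.**  There is a finite veto interval graph that is not a midpoint veto
interval graph. -/
theorem result : ∃ (V : Type) (_ : Fintype V) (G : SimpleGraph V), IsVI G ∧ ¬ IsMVI G :=
  ⟨Vx, inferInstance, G, isVI, not_isMVI⟩

end Pool.Agent.Results.MP_c8a11a_co.NotMidpoint
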